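import Mathlib

namespace Pool.Agent.Results.MP_096971_nt.Unbounded

/-- The base-`b` elated function: leading digit times the sum of the squares of the digits. -/
def E (b a : ℕ) : ℕ := (Nat.digits b a).getLastD 0 * ((Nat.digits b a).map (· ^ 2)).sum

/-- `S` is a cycle of `E b`. -/
def IsCycle (b : ℕ) (S : Set ℕ) : Prop :=
  ∃ (k : ℕ) (x : Fin (k + 1) → ℕ), Function.Injective x ∧ (∀ j, 0 < x j) ∧
    (∀ j, E b (x j) = x (j + 1)) ∧ S = Set.range x

/-- The number of cycles. -/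
noncomputable def C (b : ℕ) : ℕ∞ := {S | IsCycle b S}.encard

abbrev G := GaussianInt

def I : G := ⟨0, 1⟩

lemma I_sq : I * I = -1 := by decide

def f (r : ℤ) : G := 68 * (1 + 4 * I) * (r : G) ^ 2 + 34 * (1 + 2 * I) * r + (19 + 67 * I)

lemma f_re (r : ℤ) : (f r).re = 68 * r ^ 2 + 34 * r + 19 := by
  simp [f, I, pow_two]

lemma f_im (r : ℤ) : (f r).im = 272 * r ^ 2 + 68 * r + 67 := by
  simp [f, I, pow_two]

lemma cg {R : Type*} [CommRing R] {a b a' b' : R} (h : IsCoprime a b) (ha : a' = a)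
    (hb : b' = b) : IsCoprime a' b' := by rw [ha, hb]; exact h

lemma hensel (t : ℕ) (e p q : ℤ) (he : e = 1 + 42126 * t) (hp : p = 2 * e ^ 2 + 59)
    (hq : q = 2 * e) (k : ℕ) : ∃ r : ℤ, 1 ≤ r ∧ ((p : G) + q * I) ^ k ∣ f r := by
  set π : G := p + q * I with hπ
  set ρ : G := p - q * I with hρ
  set n : ℤ := p ^ 2 + q ^ 2 with hn
  set s : ℤ := 2 * e ^ 2 + 60 with hs
  have hI := I_sq
  have hnn : π * ρ = (n : G) := by
    rw [hπ, hρ, hn]; push_cast; linear_combination (-(q : G) ^ 2) * hI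
  have hns : n = s ^ 2 - 119 := by rw [hn, hp, hq, hs]; ring
  have c2p : IsCoprime (2 : ℤ) p := ⟨-(e ^ 2 + 29), 1, by rw [hp]; ring⟩
  have ce : IsCoprime e 59 := ⟨1, -714 * t, by rw [he]; ring⟩
  have cep : IsCoprime e p := by
    exact cg (ce.add_mul_left_right (2 * e)) rfl (by rw [hp]; ring)
  have cqp : IsCoprime q p := by rw [hq]; exact c2p.mul_left cep
  have cop : ∀ c : ℤ, IsCoprime n c → IsCoprime π (c : G) := by
    intro c hc
    have := hc.map (Int.castRingHom G)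
    simp only [eq_intCast] at this
    rw [← hnn] at this
    exact this.of_mul_left_left
  have s62 : ∃ T : ℤ, s = 62 + 714 * T := ⟨2 * (118 * t + 42126 * 59 * t ^ 2), by
    rw [hs, he]; ring⟩
  obtain ⟨T, hT⟩ := s62
  have c714 : IsCoprime n 714 := by
    have h0 : IsCoprime (3725 : ℤ) 714 := by norm_num
    exact cg (h0.add_mul_left_left (124 * T + 714 * T ^ 2)) (by rw [hns, hT]; ring) rfl
  have cs : IsCoprime n s := by
    have h0 : IsCoprime (-119 : ℤ) 62 := by norm_num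
    have h1 := h0.add_mul_left_right (-6 * T)
    have h2 : IsCoprime (-119 : ℤ) s := cg h1 rfl (by rw [hT]; ring)
    exact cg (h2.add_mul_left_left s) (by rw [hns]; ring) rfl
  have cnp : IsCoprime n p := by
    exact cg ((cqp.pow_left (m := 2)).add_mul_left_left p) (by rw [hn]; ring) rfl
  have g714 := cop _ c714
  have g2 : IsCoprime π 2 := g714.of_isCoprime_of_dvd_right ⟨357, by norm_num⟩
  have g3 : IsCoprime π 3 := g714.of_isCoprime_of_dvd_right ⟨238, by norm_num⟩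
  have g17 : IsCoprime π 17 := g714.of_isCoprime_of_dvd_right ⟨42, by norm_num⟩
  have g4 : IsCoprime π (4 - I) :=
    g17.of_isCoprime_of_dvd_right ⟨4 + I, by linear_combination hI⟩
  have g5 : IsCoprime π (1 + 4 * I) :=
    g17.of_isCoprime_of_dvd_right ⟨1 - 4 * I, by linear_combination 16 * hI⟩
  have gA : IsCoprime π (2 * (68 * (1 + 4 * I))) := by
    exact cg ((((g2.mul_right g2).mul_right g2).mul_right g17).mul_right g5) rfl (by ring)
  have gD : IsCoprime π (6 * (4 - I) * s) := by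
    exact cg (((g2.mul_right g3).mul_right g4).mul_right (cop _ cs)) rfl (by ring)
  have gρ : IsCoprime π ρ := by
    exact cg ((g2.mul_right (cop _ cnp)).add_mul_left_right (-1)) rfl (by rw [hπ, hρ]; ring)
  have lin : ∀ c d : G, IsCoprime π c → ∃ z : ℤ, π ∣ c * z - d := by
    intro c d ⟨a, b, hab⟩
    obtain ⟨u, v, huv⟩ := cqp
    have huv' : (u : G) * q + v * p = 1 := by exact_mod_cast huv
    have hx : b * d = (b * d).re + (b * d).im * I := by
      apply Zsqrtd.ext <;> simp [I]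
    refine ⟨(b * d).re + (b * d).im * (v * q - u * p),
      -(c * (b * d).im * (u + v * I)) - a * d, ?_⟩
    push_cast
    rw [hπ] at hab ⊢
    linear_combination (-c) * hx + d * hab + c * (b * d).im * I * huv'
      + c * (b * d).im * v * q * hI
  have main : ∀ k : ℕ, ∃ r : ℤ, π ^ (k + 1) ∣ f r ∧
      π ∣ 2 * (68 * (1 + 4 * I)) * r + 34 * (1 + 2 * I) - 6 * (4 - I) * s := by
    intro k
    induction k with
    | zero =>
      obtain ⟨z, w, hz⟩ := lin _ (6 * (4 - I) * s - 34 * (1 + 2 * I)) gA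
      refine ⟨z, ?_, ⟨w, by linear_combination hz⟩⟩
      rw [zero_add, pow_one]
      apply (g2.mul_right gA).dvd_of_dvd_mul_left
      refine ⟨w * (π * w + 12 * (4 - I) * s) + 36 * (4 - I) ^ 2 * ρ, ?_⟩
      have hns' : (n : G) = s ^ 2 - 119 := by exact_mod_cast hns
      rw [f]
      linear_combination
        (2 * (68 * (1 + 4 * I)) * z + 34 * (1 + 2 * I) + 6 * (4 - I) * s + π * w) * hz
        - 36 * (4 - I) ^ 2 * hnn - 36 * (4 - I) ^ 2 * hns' + 72556 * hI
    | succ k ih =>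
      obtain ⟨r, ⟨g, hg⟩, ⟨w, hw⟩⟩ := ih
      obtain ⟨z, y, hz⟩ := lin (ρ ^ (k + 1) * (6 * (4 - I) * s)) (-g)
        (gρ.pow_right.mul_right gD)
      have hk : (n : G) ^ (k + 1) = π ^ (k + 1) * ρ ^ (k + 1) := by rw [← hnn, mul_pow]
      refine ⟨r + n ^ (k + 1) * z, ⟨y + ρ ^ (k + 1) * z * w
        + 68 * (1 + 4 * I) * π ^ k * (ρ ^ (k + 1)) ^ 2 * z ^ 2, ?_⟩,
        ⟨w + 2 * (68 * (1 + 4 * I)) * π ^ k * ρ ^ (k + 1) * z, ?_⟩⟩
      · simp only [f] at hg ⊢
        push_cast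
        rw [hk]
        linear_combination hg + π ^ (k + 1) * hz + π ^ (k + 1) * ρ ^ (k + 1) * z * hw
      · push_cast
        rw [hk]
        linear_combination hw
  obtain ⟨r, ⟨g, hg⟩, -⟩ := main k
  have hn1 : 1 ≤ n := by
    have : 0 ≤ (t : ℤ) := Int.natCast_nonneg t
    rw [hn, hq]; nlinarith [sq_nonneg p]
  have hk : (n : G) ^ k = π ^ k * ρ ^ k := by rw [← hnn, mul_pow]
  refine ⟨r + n ^ k * (|r| + 1), ?_, ⟨π * g + ρ ^ k * ((|r| + 1 : ℤ) : G) *
    (68 * (1 + 4 * I) * (2 * r + π ^ k * ρ ^ k * ((|r| + 1 : ℤ) : G)) + 34 * (1 + 2 * I)), ?_⟩⟩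
  · have := one_le_pow₀ (n := k) hn1
    have := neg_abs_le r
    have := abs_nonneg r
    nlinarith
  · generalize |r| + 1 = c
    simp only [f] at hg ⊢
    push_cast
    rw [hk]
    linear_combination hg

lemma fixed (b y z : ℕ) (hb : 2 < b) (hy : y < b) (hz : z < b)
    (h : 2 * (z ^ 2 + y ^ 2 + 4) = z + b * (y + b * 2)) :
    E b (z + b * (y + b * 2)) = z + b * (y + b * 2) := by
  have d : Nat.digits b (z + b * (y + b * 2)) = [z, y, 2] := by
    rw [Nat.digits_add b (by omega) z _ hz (Or.inr (by omega)),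
      Nat.digits_add b (by omega) y _ hy (Or.inr (by omega)),
      Nat.digits_of_lt b 2 (by omega) hb]
  rw [E, d, ← h]
  simp; ring

lemma rot {p q e b U V U' V' : ℤ} (he : 1 ≤ e) (hp : p = 2 * e ^ 2 + 59) (hq : q = 2 * e)
    (hb : 4 ≤ b) (h1 : U' * p - V' * q = U * p + V * q) (h2 : U' * q + V' * p = V * p - U * q)
    (hN : U ^ 2 + V ^ 2 = 17 * b ^ 2 - 63) (hU : 0 < U) (hU3 : U ≤ 3 * b) (hV : 0 < V)
    (hV4 : V ≤ 4 * b) :
    0 < U' ∧ e * U' ≤ e * U + 8 * b ∧ 0 < V' ∧ V' < V ∧ U' ^ 2 + V' ^ 2 = 17 * b ^ 2 - 63 := by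
  have q0 : 0 < q := by omega
  have pq : 4 * q ≤ p := by nlinarith [sq_nonneg (e - 2)]
  have p0 : 0 < p := by omega
  have n0 : 0 < p ^ 2 + q ^ 2 := by positivity
  have eU : (p ^ 2 + q ^ 2) * U' = U * (p ^ 2 - q ^ 2) + 2 * p * q * V := by
    linear_combination p * h1 + q * h2
  have eV : (p ^ 2 + q ^ 2) * V' = V * (p ^ 2 - q ^ 2) - 2 * p * q * U := by
    linear_combination p * h2 - q * h1
  have d0 : 3 * p * q < p ^ 2 - q ^ 2 := by nlinarith
  have pq0 : 0 < p * q := by positivity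
  have V2 : 2 * b ≤ V := by
    by_contra hc
    push Not at hc
    nlinarith
  refine ⟨?_, ?_, ?_, ?_, ?_⟩
  · apply (mul_pos_iff_of_pos_left n0).1
    rw [eU]
    have : 0 < U * (p ^ 2 - q ^ 2) := mul_pos hU (by linarith)
    have : 0 < p * q * V := by positivity
    linarith
  · apply le_of_mul_le_mul_left _ n0
    have a1 : p * q * e ≤ p ^ 2 + q ^ 2 := by nlinarith
    have a2 : p * q * e * V ≤ (p ^ 2 + q ^ 2) * (4 * b) :=
      mul_le_mul a1 hV4 hV.le n0.le
    have a3 : 0 ≤ e * U * q ^ 2 := by positivity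
    nlinarith
  · apply (mul_pos_iff_of_pos_left n0).1
    rw [eV]
    have a1 : p * q * U ≤ p * q * (3 * b) := mul_le_mul_of_nonneg_left hU3 pq0.le
    have a2 : 2 * b * (p ^ 2 - q ^ 2) ≤ V * (p ^ 2 - q ^ 2) :=
      mul_le_mul_of_nonneg_right V2 (by linarith)
    nlinarith
  · apply lt_of_mul_lt_mul_left _ n0.le
    rw [eV]
    have : 0 < p * q * U := by positivity
    have : 0 < V * q ^ 2 := by positivity
    nlinarith
  · apply mul_left_cancel₀ n0.ne'
    linear_combination (U' * p - V' * q + U * p + V * q) * h1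
      + (U' * q + V' * p + V * p - U * q) * h2 + (p ^ 2 + q ^ 2) * hN

lemma many (k : ℕ) : ∃ b : ℕ, 2 < b ∧ ∃ a : Fin (k + 1) → ℕ, Function.Injective a ∧
    ∀ j, 0 < a j ∧ E b (a j) = a j := by
  set e : ℤ := 1 + 42126 * k with he
  set p : ℤ := 2 * e ^ 2 + 59 with hp
  set q : ℤ := 2 * e with hq
  obtain ⟨r, hr, γ, hγ⟩ := hensel k e p q he hp hq k
  set b : ℤ := 68 * r ^ 2 + 18 * r + 17 with hb
  have hb4 : 4 ≤ b := by nlinarith
  have k0 : (0 : ℤ) ≤ k := Int.natCast_nonneg k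
  have e1 : 1 ≤ e := by omega
  let x : ℕ → G := fun j => ((p : G) + q * I) ^ (k - j) * (p - q * I) ^ j * γ
  have x0 : x 0 = f r := by simp [x, hγ]
  have xs : ∀ j < k, x (j + 1) * (p + q * I) = x j * (p - q * I) := by
    intro j hj
    simp only [x]
    rw [show k - j = k - (j + 1) + 1 by omega]
    ring
  have x4 : ∀ j ≤ k, (4 : G) ∣ x j - f r := by
    intro j hj
    have h1 : (4 : G) ∣ (p - q * I) - (p + q * I) := ⟨-(e * I), by rw [hq]; push_cast; ring⟩
    have h2 := (h1.trans (sub_dvd_pow_sub_pow _ _ j)).mul_left ((p + q * I) ^ (k - j) * γ)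
    convert h2 using 1
    rw [hγ]
    simp only [x]
    nth_rewrite 2 [show k = k - j + j by omega]
    ring
  have step : ∀ j < k, (x (j + 1)).re * p - (x (j + 1)).im * q = (x j).re * p + (x j).im * q ∧
      (x (j + 1)).re * q + (x (j + 1)).im * p = (x j).im * p - (x j).re * q := by
    intro j hj
    have h1 := congrArg Zsqrtd.re (xs j hj)
    have h2 := congrArg Zsqrtd.im (xs j hj)
    simp [I] at h1 h2
    constructor <;> linarith
  have inv : ∀ j ≤ k, 0 < (x j).re ∧ e * (x j).re ≤ e * (2 * b) + 8 * b * j ∧ 0 < (x j).im ∧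
      (x j).im < 4 * b - 1 ∧ (x j).re ^ 2 + (x j).im ^ 2 = 17 * b ^ 2 - 63 ∧
      ∀ i < j, (x j).im < (x i).im := by
    intro j
    induction j with
    | zero =>
      intro _
      rw [x0, f_re, f_im]
      refine ⟨by positivity, ?_, by positivity, by nlinarith, by rw [hb]; ring, by simp⟩
      have : 68 * r ^ 2 + 34 * r + 19 ≤ 2 * b := by nlinarith
      have := mul_le_mul_of_nonneg_left this (show 0 ≤ e by omega)
      simpa using this
    | succ j ih =>
      intro hj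
      obtain ⟨a1, a2, a3, a4, a5, a6⟩ := ih (by omega)
      obtain ⟨s1, s2⟩ := step j (by omega)
      have j0 : (j : ℤ) ≤ k := by exact_mod_cast (by omega : j ≤ k)
      have u3 : (x j).re ≤ 3 * b := by
        apply le_of_mul_le_mul_left _ (show 0 < e by omega)
        nlinarith
      obtain ⟨b1, b2, b3, b4, b5⟩ := rot e1 hp hq hb4 s1 s2 a5 a1 u3 a3 (by omega)
      refine ⟨b1, by push_cast; linarith, b3, by omega, b5, fun i hi => ?_⟩
      rcases Nat.lt_succ_iff_lt_or_eq.1 hi with hi | rfl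
      · exact b4.trans (a6 i hi)
      · exact b4
  have dig : ∀ j ≤ k, ∃ y z : ℕ, y < b.toNat ∧ z < b.toNat ∧ (4 * z : ℤ) = (x j).im + 1 ∧
      2 * (z ^ 2 + y ^ 2 + 4) = z + b.toNat * (y + b.toNat * 2) := by
    intro j hj
    obtain ⟨a1, a2, a3, a4, a5, -⟩ := inv j hj
    obtain ⟨w, hw⟩ := x4 j hj
    have h1 := congrArg Zsqrtd.re hw
    have h2 := congrArg Zsqrtd.im hw
    simp [f_re, f_im] at h1 h2
    have j0 : (j : ℤ) ≤ k := by exact_mod_cast hj
    have u3 : (x j).re < 3 * b := by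
      apply lt_of_mul_lt_mul_left _ (show 0 ≤ e by omega)
      nlinarith
    obtain ⟨y, hy⟩ : ∃ y : ℕ, (4 * y : ℤ) = (x j).re + b :=
      ⟨(w.re + 34 * r ^ 2 + 13 * r + 9).toNat, by
        rw [Int.toNat_of_nonneg (by linarith)]; linarith⟩
    obtain ⟨z, hz⟩ : ∃ z : ℕ, (4 * z : ℤ) = (x j).im + 1 :=
      ⟨(w.im + 68 * r ^ 2 + 17 * r + 17).toNat, by
        rw [Int.toNat_of_nonneg (by linarith)]; linarith⟩
    refine ⟨y, z, by omega, by omega, hz, ?_⟩
    have hbb : ((b.toNat : ℕ) : ℤ) = b := Int.toNat_of_nonneg (by omega)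
    zify
    rw [hbb]
    have e2 : (x j).re = 4 * y - b := by linarith
    have e3 : (x j).im = 4 * z - 1 := by linarith
    rw [e2, e3] at a5
    linarith
  choose y z hy hz hz' hyz using dig
  have hb2 : 2 < b.toNat := by omega
  refine ⟨b.toNat, hb2, fun j => z j (Nat.lt_succ_iff.1 j.2)
    + b.toNat * (y j (Nat.lt_succ_iff.1 j.2) + b.toNat * 2), ?_, fun j => ⟨by positivity,
      fixed _ _ _ hb2 (hy _ _) (hz _ _) (hyz _ _)⟩⟩
  intro i j hij
  have h1 := congrArg (· % b.toNat) hij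
  simp only [Nat.add_mul_mod_self_left, Nat.mod_eq_of_lt (hz _ _)] at h1
  have h2 := hz' i (Nat.lt_succ_iff.1 i.2)
  have h3 := hz' j (Nat.lt_succ_iff.1 j.2)
  rw [h1] at h2
  apply Fin.ext
  by_contra hne
  rcases lt_or_gt_of_ne hne with h | h
  · have := (inv j (Nat.lt_succ_iff.1 j.2)).2.2.2.2.2 i h
    omega
  · have := (inv i (Nat.lt_succ_iff.1 i.2)).2.2.2.2.2 j h
    omega

theorem result (M : ℕ) : ∃ b : ℕ, 2 ≤ b ∧ (M : ℕ∞) < C b ∧
    (M : ℕ∞) < {a : ℕ | 0 < a ∧ E b a = a}.encard := by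
  obtain ⟨b, hb, a, ha, hf⟩ := many M
  have lt : ∀ {α : Type} (g : Fin (M + 1) → α) (S : Set α), Function.Injective g →
      (∀ j, g j ∈ S) → (M : ℕ∞) < S.encard := by
    intro α g S hg hS
    have h1 : (Set.range g).encard ≤ S.encard := Set.encard_le_encard (by
      rintro _ ⟨j, rfl⟩; exact hS j)
    refine lt_of_lt_of_le ?_ (hg.encard_range.trans h1)
    simp only [ENat.card_eq_coe_fintype_card, Fintype.card_fin]
    exact_mod_cast Nat.lt_succ_self M
  refine ⟨b, hb.le, lt (fun j => {a j}) _ (fun i j h => ha (Set.singleton_injective h)) ?_,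
    lt a _ ha hf⟩
  intro j
  exact ⟨0, fun _ => a j, fun u v _ => Subsingleton.elim (α := Fin 1) u v, fun _ => (hf j).1,
    fun _ => (hf j).2, by simp⟩

end Pool.Agent.Results.MP_096971_nt.Unbounded
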